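import Pool.Agent.W732.Ud.Stm

set_option autoImplicit false

open Metric Set Filter Topology Complex

namespace Pool.Agent.W15.Ud

open Pool.Agent.W732.Cor (V)
open Pool.Agent.W732.Ud (SS S_geo3)

/-- the map into the ball -/
noncomputable def Gt {m : ℕ} (e : V m) (s : ℝ) (W : V m → ℂ) (Y : V m → V m) (z : V m) : V m :=
  ((((s : ℂ) ^ 2) - W z) / (((s : ℂ) ^ 2) + W z)) • e + ((2 * (s : ℂ)) / (((s : ℂ) ^ 2) + W z)) • Y z

theorem pyth {m : ℕ} (e v : V m) (he : ‖e‖ = 1) (hv : (inner ℂ e v : ℂ) = 0) (a : ℂ) :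
    ‖a • e + v‖ ^ 2 = ‖a‖ ^ 2 + ‖v‖ ^ 2 := by
  have h : (inner ℂ (a • e) v : ℂ) = 0 := by rw [inner_smul_left, hv, mul_zero]
  have h2 := norm_add_sq_eq_norm_sq_add_norm_sq_of_inner_eq_zero (𝕜 := ℂ) (a • e) v h
  rw [norm_smul, he, mul_one] at h2
  nlinarith

theorem den_ne (s : ℝ) (w : ℂ) (hw : 0 < w.re) : ((s : ℂ) ^ 2) + w ≠ 0 := by
  intro h
  have := congrArg Complex.re h
  have h2 : (((s : ℂ) ^ 2) + w).re = s ^ 2 + w.re := by
    rw [add_re, ← ofReal_pow, ofReal_re]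
  rw [h2, zero_re] at this
  have := sq_nonneg s
  linarith

theorem G_ball {m : ℕ} (e : V m) (he : ‖e‖ = 1) (s : ℝ) (hs : 0 < s) (W : V m → ℂ) (Y : V m → V m)
    (z : V m) (h1 : (inner ℂ e (Y z) : ℂ) = 0) (h2 : ‖Y z‖ ^ 2 < (W z).re) :
    ‖Gt e s W Y z‖ < 1 := by
  have hW : 0 < (W z).re := lt_of_le_of_lt (sq_nonneg _) h2
  have hd := den_ne s (W z) hW
  set w := W z with hw
  have hd' : 0 < ‖((s : ℂ) ^ 2) + w‖ := norm_pos_iff.2 hd
  have key : ‖((s : ℂ) ^ 2) - w‖ ^ 2 + (2 * s) ^ 2 * ‖Y z‖ ^ 2 < ‖((s : ℂ) ^ 2) + w‖ ^ 2 := by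
    have e1 : ‖((s : ℂ) ^ 2) - w‖ ^ 2 = (s ^ 2 - w.re) ^ 2 + w.im ^ 2 := by
      rw [← Complex.normSq_eq_norm_sq, Complex.normSq_apply, ← ofReal_pow, sub_re, sub_im,
        ofReal_re, ofReal_im]
      ring
    have e2 : ‖((s : ℂ) ^ 2) + w‖ ^ 2 = (s ^ 2 + w.re) ^ 2 + w.im ^ 2 := by
      rw [← Complex.normSq_eq_norm_sq, Complex.normSq_apply, ← ofReal_pow, add_re, add_im,
        ofReal_re, ofReal_im]
      ring
    rw [e1, e2]
    have hs2 : 0 < s ^ 2 := by positivity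
    nlinarith [mul_lt_mul_of_pos_left h2 hs2]
  have h3 : ‖Gt e s W Y z‖ ^ 2 < 1 := by
    unfold Gt
    have h4 : (inner ℂ e (((2 * (s : ℂ)) / (((s : ℂ) ^ 2) + w)) • Y z) : ℂ) = 0 := by
      rw [inner_smul_right, h1, mul_zero]
    rw [pyth e _ he h4, norm_div, norm_smul, norm_div, norm_mul]
    have h5 : ‖(2 : ℂ)‖ * ‖(s : ℂ)‖ = 2 * s := by
      rw [Complex.norm_real, Real.norm_of_nonneg hs.le]; simp
    rw [h5, div_pow, mul_pow, div_pow]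
    rw [div_mul_eq_mul_div, ← add_div, div_lt_one (by positivity)]
    exact key
  by_contra hc
  push Not at hc
  nlinarith [norm_nonneg (Gt e s W Y z)]

theorem G_diff {m : ℕ} (e : V m) (s : ℝ) (W : V m → ℂ) (Y : V m → V m) (D : Set (V m))
    (dW : DifferentiableOn ℂ W D) (dY : DifferentiableOn ℂ Y D) (hW : ∀ z ∈ D, 0 < (W z).re) :
    DifferentiableOn ℂ (Gt e s W Y) D := by
  unfold Gt
  have hd : ∀ z ∈ D, ((s : ℂ) ^ 2) + W z ≠ 0 := fun z hz => den_ne s (W z) (hW z hz)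
  have h0 : DifferentiableOn ℂ (fun z => (((s : ℂ) ^ 2) + W z)⁻¹) D :=
    DifferentiableOn.inv ((differentiableOn_const _).add dW) hd
  have h1 : DifferentiableOn ℂ (fun z => (((s : ℂ) ^ 2) - W z) / (((s : ℂ) ^ 2) + W z)) D := by
    simp only [div_eq_mul_inv]
    exact ((differentiableOn_const _).sub dW).mul h0
  have h2 : DifferentiableOn ℂ (fun z => (2 * (s : ℂ)) / (((s : ℂ) ^ 2) + W z)) D := by
    simp only [div_eq_mul_inv]
    exact (differentiableOn_const _).mul h0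
  exact (h1.smul_const e).add (h2.smul dY)

/-- the point of the half space -/
noncomputable def om {m : ℕ} (e x : V m) : ℂ := (1 - innerSL ℂ e x) / (1 + innerSL ℂ e x)
/-- the orthogonal part -/
noncomputable def xp {m : ℕ} (e x : V m) : V m := x - (innerSL ℂ e x) • e
/-- the orthogonal part of the point of the half space -/
noncomputable def ze {m : ℕ} (e x : V m) : V m := (1 / (1 + innerSL ℂ e x)) • xp e x
/-- the `y` part -/
noncomputable def yy {m : ℕ} (e : V m) (A' : V m →L[ℂ] V m) (s : ℝ) (x : V m) : V m :=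
  (s : ℂ) • A' (ze e x)
/-- the `w` part -/
noncomputable def ww {m : ℕ} (e : V m) (A' : V m →L[ℂ] V m) (B : V m →L[ℂ] V m →L[ℂ] ℂ) (s : ℝ)
    (x : V m) : ℂ := (s : ℂ) ^ 2 * om e x + B (yy e A' s x) (yy e A' s x)

theorem xp_orth {m : ℕ} (e x : V m) (he : ‖e‖ = 1) : (inner ℂ e (xp e x) : ℂ) = 0 := by
  unfold xp
  rw [inner_sub_right, inner_smul_right, inner_self_eq_norm_sq_to_K, he, innerSL_apply_apply]
  simp

theorem x_dec {m : ℕ} (e x : V m) (he : ‖e‖ = 1) : ‖x‖ ^ 2 = ‖innerSL ℂ e x‖ ^ 2 + ‖xp e x‖ ^ 2 := by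
  rw [← pyth e (xp e x) he (xp_orth e x he) (innerSL ℂ e x)]
  congr 2
  unfold xp
  abel

theorem inn_le {m : ℕ} (e x : V m) (he : ‖e‖ = 1) : ‖innerSL ℂ e x‖ ≤ ‖x‖ := by
  rw [innerSL_apply_apply]
  have := norm_inner_le_norm (𝕜 := ℂ) e x
  rwa [he, one_mul] at this

theorem xp_le {m : ℕ} (e x : V m) (he : ‖e‖ = 1) : ‖xp e x‖ ≤ ‖x‖ := by
  have := x_dec e x he
  have h2 := sq_nonneg ‖innerSL ℂ e x‖
  exact abs_le_of_sq_le_sq' (by linarith) (norm_nonneg _) |>.2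

/-- all the facts about `om`, `ze` -/
theorem facts {m : ℕ} (e x : V m) (he : ‖e‖ = 1) (r : ℝ) (hr : r < 1) (hx : ‖x‖ < r) :
    1 - r ≤ ‖1 + innerSL ℂ e x‖ ∧ ‖om e x‖ ≤ 2 / (1 - r) ∧ ‖ze e x‖ ≤ 1 / (1 - r) ∧
    (1 - r ^ 2) / 4 ≤ (om e x).re - ‖ze e x‖ ^ 2 ∧ (inner ℂ e (ze e x) : ℂ) = 0 ∧
    innerSL ℂ e x = (1 - om e x) / (1 + om e x) ∧ xp e x = (2 / (1 + om e x)) • ze e x := by
  have hr0 : 0 < r := lt_of_le_of_lt (norm_nonneg _) hx
  set a : ℂ := innerSL ℂ e x with ha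
  have ha1 : ‖a‖ < r := (inn_le e x he).trans_lt hx
  have h1 : 1 - r ≤ ‖1 + a‖ := by
    have := norm_sub_norm_le (1 : ℂ) (-a)
    rw [norm_neg, norm_one, sub_neg_eq_add] at this
    linarith
  have h1r : 0 < 1 - r := by linarith
  have hpos : 0 < ‖1 + a‖ := by linarith
  have hne : 1 + a ≠ 0 := norm_pos_iff.1 hpos
  have hxp := (xp_le e x he)
  refine ⟨h1, ?_, ?_, ?_, ?_, ?_, ?_⟩
  · unfold om
    rw [← ha, norm_div]
    have h2 : ‖1 - a‖ ≤ 2 := by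
      have := norm_sub_le (1 : ℂ) a
      rw [norm_one] at this
      linarith
    gcongr
  · unfold ze
    rw [← ha, norm_smul, norm_div, norm_one, div_mul_eq_mul_div, one_mul]
    have h2 : ‖xp e x‖ ≤ 1 := by linarith
    gcongr
  · have hre : (om e x).re = (1 - ‖a‖ ^ 2) / ‖1 + a‖ ^ 2 := by
      unfold om
      rw [← ha, Complex.div_re, ← Complex.normSq_eq_norm_sq, ← Complex.normSq_eq_norm_sq,
        ← add_div]
      congr 1
      rw [Complex.normSq_apply]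
      simp
      ring
    have hz : ‖ze e x‖ ^ 2 = ‖xp e x‖ ^ 2 / ‖1 + a‖ ^ 2 := by
      unfold ze
      rw [← ha, norm_smul, norm_div, norm_one, mul_pow, div_pow, one_pow, div_mul_eq_mul_div,
        one_mul]
    rw [hre, hz, ← sub_div]
    have h3 := x_dec e x he
    rw [← ha] at h3
    have h4 : 1 - ‖a‖ ^ 2 - ‖xp e x‖ ^ 2 = 1 - ‖x‖ ^ 2 := by linarith
    rw [h4]
    have h5 : ‖1 + a‖ ^ 2 ≤ 4 := by
      have h6 : ‖1 + a‖ ≤ 2 := by
        have := norm_add_le (1 : ℂ) a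
        rw [norm_one] at this
        linarith
      nlinarith
    have h7 : 1 - r ^ 2 ≤ 1 - ‖x‖ ^ 2 := by
      have := norm_nonneg x
      nlinarith
    have h8 : 0 ≤ 1 - ‖x‖ ^ 2 := by nlinarith [norm_nonneg x]
    gcongr
  · unfold ze
    rw [inner_smul_right, xp_orth e x he, mul_zero]
  · unfold om
    rw [← ha]
    field_simp
    ring
  · unfold ze om
    rw [← ha, smul_smul]
    have : (2 / (1 + (1 - a) / (1 + a)) * (1 / (1 + a)) : ℂ) = 1 := by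
      field_simp
      ring
    rw [this, one_smul]

theorem ze_diff {m : ℕ} (e : V m) (he : ‖e‖ = 1) (r : ℝ) (hr : r < 1) :
    DifferentiableOn ℂ (om e) (ball 0 r) ∧ DifferentiableOn ℂ (ze e) (ball 0 r) := by
  have hne : ∀ x ∈ ball (0 : V m) r, 1 + innerSL ℂ e x ≠ 0 := by
    intro x hx
    have hx' : ‖x‖ < r := by simpa using hx
    have h1 := (facts e x he r hr hx').1
    have : 0 < ‖1 + innerSL ℂ e x‖ := by linarith
    exact norm_pos_iff.1 this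
  have hl : DifferentiableOn ℂ (fun x : V m => innerSL ℂ e x) (ball 0 r) :=
    (innerSL ℂ e).differentiable.differentiableOn
  have h0 : DifferentiableOn ℂ (fun x : V m => (1 + innerSL ℂ e x)⁻¹) (ball 0 r) :=
    DifferentiableOn.inv ((differentiableOn_const _).add hl) hne
  constructor
  · unfold om
    simp only [div_eq_mul_inv]
    exact ((differentiableOn_const _).sub hl).mul h0
  · unfold ze xp
    simp only [div_eq_mul_inv, one_mul]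
    exact h0.smul (differentiableOn_id.sub (hl.smul_const e))

/-- bounds for a point -/
theorem pt_bounds {m : ℕ} (e : V m) (A A' : V m →L[ℂ] V m) (B : V m →L[ℂ] V m →L[ℂ] ℂ)
    (he : ‖e‖ = 1)
    (h1 : ∀ y, (inner ℂ e y : ℂ) = 0 → (inner ℂ e (A y) : ℂ) = 0 ∧ (inner ℂ e (A' y) : ℂ) = 0 ∧
        A (A' y) = y) (r : ℝ) (hr : r < 1) (s : ℝ) (hs0 : 0 < s) (K C1 C2 : ℝ)
    (hK : K = 1 / (1 - r)) (hC1 : C1 = ‖A'‖ * K) (hC2 : C2 = 2 * K + ‖B‖ * C1 ^ 2)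
    (x : V m) (hx' : ‖x‖ < r) : ‖yy e A' s x‖ ≤ C1 * s ∧ ‖ww e A' B s x‖ ≤ C2 * s ^ 2 ∧
      (inner ℂ e (yy e A' s x) : ℂ) = 0 ∧ A (yy e A' s x) = (s : ℂ) • ze e x := by
  obtain ⟨f1, f2, f3, f4, f5, f6, f7⟩ := facts e x he r hr hx'
  obtain ⟨-, g2, g3⟩ := h1 (ze e x) f5
  have hs' : ‖(s : ℂ)‖ = s := by rw [Complex.norm_real, Real.norm_of_nonneg hs0.le]
  have hy : ‖yy e A' s x‖ ≤ C1 * s := by
    unfold yy
    rw [norm_smul, hs']
    have h4 : ‖A' (ze e x)‖ ≤ C1 := by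
      rw [hC1, hK]
      exact (A'.le_opNorm _).trans (mul_le_mul_of_nonneg_left f3 (norm_nonneg _))
    rw [mul_comm]
    exact mul_le_mul_of_nonneg_right h4 hs0.le
  refine ⟨hy, ?_, ?_, ?_⟩
  · unfold ww
    have h5 : ‖(s : ℂ) ^ 2 * om e x‖ ≤ s ^ 2 * (2 * K) := by
      rw [norm_mul, norm_pow, hs']
      have ho : ‖om e x‖ ≤ 2 * K := by rw [hK]; exact f2.trans (le_of_eq (by ring))
      exact mul_le_mul_of_nonneg_left ho (by positivity)
    have hB : ‖B (yy e A' s x) (yy e A' s x)‖ ≤ ‖B‖ * (C1 * s) ^ 2 := by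
      have h6 := B.le_opNorm₂ (yy e A' s x) (yy e A' s x)
      have h7 : ‖yy e A' s x‖ ^ 2 ≤ (C1 * s) ^ 2 := pow_le_pow_left₀ (norm_nonneg _) hy 2
      have h8 := mul_le_mul_of_nonneg_left h7 (norm_nonneg B)
      calc _ ≤ _ := h6
        _ = ‖B‖ * ‖yy e A' s x‖ ^ 2 := by ring
        _ ≤ _ := h8
    calc _ ≤ _ := norm_add_le _ _
      _ ≤ s ^ 2 * (2 * K) + ‖B‖ * (C1 * s) ^ 2 := add_le_add h5 hB
      _ = C2 * s ^ 2 := by rw [hC2]; ring
  · unfold yy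
    rw [inner_smul_right, g2, mul_zero]
  · unfold yy
    rw [ContinuousLinearMap.map_smul, g3]

/-- the value of the defining inequality -/
theorem in_dom {m : ℕ} (e : V m) (A A' : V m →L[ℂ] V m) (B : V m →L[ℂ] V m →L[ℂ] ℂ)
    (l : V m →L[ℂ] ℂ) (β : ℝ) (he : ‖e‖ = 1) (r : ℝ) (hr : r < 1) (s : ℝ) (hs0 : 0 < s)
    (hs1 : s ≤ 1) (C1 C2 C3 c5 σ0 : ℝ) (hC10 : 0 ≤ C1) (hC20 : 0 ≤ C2)
    (hC3 : C3 = C2 * ‖l‖ * C1 + |β| * C2 ^ 2)
    (hc5 : c5 = (1 - r ^ 2) / 4) (hc50 : 0 < c5) (hσ0 : σ0 = c5 / (4 * (C1 ^ 2 + C2 ^ 2 + 1)))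
    (hsd : C3 * s ≤ c5 / 4) (x : V m) (hx' : ‖x‖ < r) (p1 : ‖yy e A' s x‖ ≤ C1 * s)
    (p2 : ‖ww e A' B s x‖ ≤ C2 * s ^ 2) (p4 : A (yy e A' s x) = (s : ℂ) • ze e x) :
    SS A B l β (yy e A' s x) (ww e A' B s x).im +
      σ0 * (‖yy e A' s x‖ ^ 2 + (ww e A' B s x).im ^ 2) < (ww e A' B s x).re := by
  obtain ⟨f1, f2, f3, f4, f5, f6, f7⟩ := facts e x he r hr hx'
  have hs' : ‖(s : ℂ)‖ = s := by rw [Complex.norm_real, Real.norm_of_nonneg hs0.le]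
  set y := yy e A' s x with hy
  set w := ww e A' B s x with hw
  set v := w.im with hv
  have hv1 : |v| ≤ C2 * s ^ 2 := (Complex.abs_im_le_norm w).trans p2
  have hre : w.re = s ^ 2 * (om e x).re + (B y y).re := by
    rw [hw]
    unfold ww
    rw [← hy, add_re, ← ofReal_pow, Complex.re_ofReal_mul]
  unfold SS
  rw [p4, norm_smul, hs', hre]
  have hl : |v * (l y).re| ≤ C2 * s ^ 2 * (‖l‖ * (C1 * s)) := by
    rw [abs_mul]
    have h2 : |(l y).re| ≤ ‖l‖ * (C1 * s) :=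
      (Complex.abs_re_le_norm _).trans ((l.le_opNorm y).trans
        (mul_le_mul_of_nonneg_left p1 (norm_nonneg _)))
    exact mul_le_mul hv1 h2 (abs_nonneg _) (by positivity)
  have hb : |β * v ^ 2| ≤ |β| * (C2 * s ^ 2) ^ 2 := by
    rw [abs_mul, abs_pow]
    exact mul_le_mul_of_nonneg_left (pow_le_pow_left₀ (abs_nonneg _) hv1 2) (abs_nonneg _)
  have hl' := le_abs_self (v * (l y).re)
  have hb' := le_abs_self (β * v ^ 2)
  have hy2 : ‖y‖ ^ 2 ≤ (C1 * s) ^ 2 := pow_le_pow_left₀ (norm_nonneg _) p1 2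
  have hv2 : v ^ 2 ≤ (C2 * s ^ 2) ^ 2 := by
    rw [← sq_abs v]; exact pow_le_pow_left₀ (abs_nonneg _) hv1 2
  have hs2 : s ^ 2 ≤ 1 := pow_le_one₀ hs0.le hs1
  have hs4 : (C2 * s ^ 2) ^ 2 ≤ C2 ^ 2 * s ^ 2 := by
    have h9 : 0 ≤ C2 ^ 2 * s ^ 2 := by positivity
    have h10 := mul_le_mul_of_nonneg_left hs2 h9
    linarith
  have hσ1 : σ0 * (‖y‖ ^ 2 + v ^ 2) ≤ c5 / 4 * s ^ 2 := by
    have h3 : ‖y‖ ^ 2 + v ^ 2 ≤ (C1 ^ 2 + C2 ^ 2 + 1) * s ^ 2 := by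
      have h9 : 0 ≤ s ^ 2 := by positivity
      have h10 : (C1 * s) ^ 2 = C1 ^ 2 * s ^ 2 := by ring
      linarith
    have h4 : 0 ≤ σ0 := by rw [hσ0]; positivity
    calc _ ≤ σ0 * ((C1 ^ 2 + C2 ^ 2 + 1) * s ^ 2) := mul_le_mul_of_nonneg_left h3 h4
      _ = c5 / 4 * s ^ 2 := by
        rw [hσ0]
        have : C1 ^ 2 + C2 ^ 2 + 1 ≠ 0 := by positivity
        field_simp
  have herr : C2 * s ^ 2 * (‖l‖ * (C1 * s)) + |β| * (C2 * s ^ 2) ^ 2 ≤ c5 / 4 * s ^ 2 := by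
    have h5 : C2 * s ^ 2 * (‖l‖ * (C1 * s)) + |β| * (C2 * s ^ 2) ^ 2 ≤ (C3 * s) * s ^ 2 := by
      rw [hC3]
      have h6 : |β| * (C2 * s ^ 2) ^ 2 ≤ |β| * C2 ^ 2 * s * s ^ 2 := by
        have h7 : 0 ≤ |β| * C2 ^ 2 * s ^ 2 * s := by positivity
        have h8 := mul_le_mul_of_nonneg_left hs1 h7
        linarith
      linarith
    refine h5.trans (mul_le_mul_of_nonneg_right hsd (by positivity))
  have hmain : c5 * s ^ 2 ≤ s ^ 2 * (om e x).re - (s * ‖ze e x‖) ^ 2 := by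
    have h8 : c5 * s ^ 2 ≤ ((om e x).re - ‖ze e x‖ ^ 2) * s ^ 2 :=
      mul_le_mul_of_nonneg_right (by rw [hc5]; exact f4) (by positivity)
    linarith [h8]
  have hfin : 0 < c5 * s ^ 2 := by positivity
  linarith

/-- the final estimate -/
theorem close_est {m : ℕ} (e x : V m) (he : ‖e‖ = 1) (r : ℝ) (hr : r < 1) (hx' : ‖x‖ < r)
    (K C1 q σ1 s κ : ℝ) (hK : K = 1 / (1 - r)) (hs0 : 0 < s) (hκ : 0 < κ) (hκ1 : κ < 1)
    (Wz : ℂ) (Yz : V m) (hW : 0 < Wz.re)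
    (hw : ‖Wz - (s : ℂ) ^ 2 * om e x‖ ≤ σ1 * q * s ^ 2)
    (hy : ‖Yz - (κ : ℂ) • ((s : ℂ) • ze e x)‖ ≤ σ1 * (C1 * s)) :
    ‖((((s : ℂ) ^ 2) - Wz) / (((s : ℂ) ^ 2) + Wz)) • e + ((2 * (s : ℂ)) / (((s : ℂ) ^ 2) + Wz)) • Yz
      - ((inner ℂ e x : ℂ) • e + (κ : ℂ) • (x - (inner ℂ e x : ℂ) • e))‖ ≤
      σ1 * (2 * q * (1 + K) + 2 * C1) := by
  obtain ⟨f1, f2, f3, f4, f5, f6, f7⟩ := facts e x he r hr hx'
  have hr0 : 0 < r := lt_of_le_of_lt (norm_nonneg _) hx'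
  have hr1 : 0 < 1 - r := by linarith
  have hK0 : 0 < K := by rw [hK]; positivity
  have hsc : (s : ℂ) ≠ 0 := by exact_mod_cast hs0.ne'
  have hsn : ‖(s : ℂ)‖ = s := by rw [Complex.norm_real, Real.norm_of_nonneg hs0.le]
  set o' : ℂ := Wz / (s : ℂ) ^ 2 with ho'
  set z' : V m := ((s : ℂ)⁻¹) • Yz with hz'
  have hWo : Wz = (s : ℂ) ^ 2 * o' := by rw [ho']; field_simp
  have hYz : Yz = (s : ℂ) • z' := by rw [hz', smul_smul, mul_inv_cancel₀ hsc, one_smul]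
  have hc5 : 0 < (1 - r ^ 2) / 4 := by nlinarith
  have hore : 0 < (om e x).re := by
    have := sq_nonneg ‖ze e x‖
    linarith
  have ho're : 0 < o'.re := by
    have h3 : o' = ((s ^ 2 : ℝ)⁻¹ : ℝ) * Wz := by
      rw [ho']; push_cast; field_simp
    rw [h3, Complex.re_ofReal_mul]
    positivity
  have hn : ∀ u : ℂ, 0 < u.re → 1 ≤ ‖1 + u‖ := by
    intro u hu
    have := Complex.re_le_norm (1 + u)
    rw [add_re, one_re] at this
    linarith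
  have n1 := hn _ ho're
  have n2 := hn _ hore
  have ne1 : 1 + o' ≠ 0 := norm_pos_iff.1 (by linarith)
  have ne2 : 1 + om e x ≠ 0 := norm_pos_iff.1 (by linarith)
  have hd : ‖o' - om e x‖ ≤ σ1 * q := by
    have h4 : o' - om e x = (Wz - (s : ℂ) ^ 2 * om e x) / (s : ℂ) ^ 2 := by
      rw [ho']; field_simp
    rw [h4, norm_div, norm_pow, hsn, div_le_iff₀ (by positivity)]
    exact hw
  have hdz : ‖z' - (κ : ℂ) • ze e x‖ ≤ σ1 * C1 := by
    have h5 : z' - (κ : ℂ) • ze e x = ((s : ℂ)⁻¹) • (Yz - (κ : ℂ) • ((s : ℂ) • ze e x)) := by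
      have h6 : ((s : ℂ)⁻¹) • ((κ : ℂ) • ((s : ℂ) • ze e x)) = (κ : ℂ) • ze e x := by
        rw [smul_smul, smul_smul]
        congr 1
        field_simp
      rw [smul_sub, h6]
    rw [h5, norm_smul, norm_inv, hsn]
    rw [inv_mul_le_iff₀ hs0]
    linarith
  have e1 : (((s : ℂ) ^ 2) - Wz) / (((s : ℂ) ^ 2) + Wz) = (1 - o') / (1 + o') := by
    rw [hWo]
    have : (s : ℂ) ^ 2 + (s : ℂ) ^ 2 * o' ≠ 0 := by
      rw [← mul_one_add]
      exact mul_ne_zero (pow_ne_zero _ hsc) ne1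
    rw [div_eq_div_iff this ne1]
    ring
  have e2 : ((2 * (s : ℂ)) / (((s : ℂ) ^ 2) + Wz)) • Yz = (2 / (1 + o')) • z' := by
    rw [hYz, hWo, smul_smul]
    congr 1
    have : (s : ℂ) ^ 2 + (s : ℂ) ^ 2 * o' ≠ 0 := by
      rw [← mul_one_add]
      exact mul_ne_zero (pow_ne_zero _ hsc) ne1
    rw [div_mul_eq_mul_div, div_eq_div_iff this ne1]
    ring
  have e3 : (inner ℂ e x : ℂ) = (1 - om e x) / (1 + om e x) := by
    rw [← f6, innerSL_apply_apply]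
  have e4 : x - (inner ℂ e x : ℂ) • e = (2 / (1 + om e x)) • ze e x := by
    rw [← f7]; unfold xp; rw [innerSL_apply_apply]
  rw [e1, e2, e4, e3]
  have hsplit : ((1 - o') / (1 + o')) • e + (2 / (1 + o')) • z' -
      (((1 - om e x) / (1 + om e x)) • e + (κ : ℂ) • (2 / (1 + om e x)) • ze e x) =
      ((1 - o') / (1 + o') - (1 - om e x) / (1 + om e x)) • e +
      (2 / (1 + o')) • (z' - (κ : ℂ) • ze e x) +
      ((2 / (1 + o') - 2 / (1 + om e x)) * (κ : ℂ)) • ze e x := by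
    module
  rw [hsplit]
  have b1 : ‖((1 - o') / (1 + o') - (1 - om e x) / (1 + om e x)) • e‖ ≤ 2 * (σ1 * q) := by
    rw [norm_smul, he, mul_one]
    have h6 : (1 - o') / (1 + o') - (1 - om e x) / (1 + om e x) =
        -2 * (o' - om e x) / ((1 + o') * (1 + om e x)) := by
      field_simp; ring
    rw [h6, norm_div, norm_mul, norm_mul, norm_neg]
    have h7 : (1 : ℝ) ≤ ‖1 + o'‖ * ‖1 + om e x‖ := one_le_mul_of_one_le_of_one_le n1 n2
    have h8 : ‖(2 : ℂ)‖ = 2 := by simp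
    rw [h8]
    refine (div_le_self (by positivity) h7).trans ?_
    linarith
  have b2 : ‖(2 / (1 + o')) • (z' - (κ : ℂ) • ze e x)‖ ≤ 2 * (σ1 * C1) := by
    rw [norm_smul, norm_div]
    have h8 : ‖(2 : ℂ)‖ = 2 := by simp
    rw [h8]
    have h9 : 2 / ‖1 + o'‖ ≤ 2 := div_le_self (by norm_num) n1
    exact mul_le_mul h9 hdz (norm_nonneg _) (by norm_num)
  have b3 : ‖((2 / (1 + o') - 2 / (1 + om e x)) * (κ : ℂ)) • ze e x‖ ≤ 2 * (σ1 * q) * K := by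
    rw [norm_smul, norm_mul]
    have h6 : 2 / (1 + o') - 2 / (1 + om e x) =
        -2 * (o' - om e x) / ((1 + o') * (1 + om e x)) := by
      field_simp; ring
    have h7 : (1 : ℝ) ≤ ‖1 + o'‖ * ‖1 + om e x‖ := one_le_mul_of_one_le_of_one_le n1 n2
    have h8 : ‖(2 : ℂ)‖ = 2 := by simp
    have h10 : ‖2 / (1 + o') - 2 / (1 + om e x)‖ ≤ 2 * (σ1 * q) := by
      rw [h6, norm_div, norm_mul, norm_mul, norm_neg, h8]
      refine (div_le_self (by positivity) h7).trans ?_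
      linarith
    have h11 : ‖(κ : ℂ)‖ ≤ 1 := by
      rw [Complex.norm_real, Real.norm_of_nonneg hκ.le]; exact hκ1.le
    have h12 : ‖2 / (1 + o') - 2 / (1 + om e x)‖ * ‖(κ : ℂ)‖ ≤ 2 * (σ1 * q) := by
      have h13 := mul_le_mul h10 h11 (norm_nonneg _) ((norm_nonneg _).trans h10)
      linarith
    have h14 : ‖ze e x‖ ≤ K := by rw [hK]; exact f3
    exact mul_le_mul h12 h14 (norm_nonneg _) ((by positivity : (0 : ℝ) ≤ _).trans h12)
  calc _ ≤ _ := norm_add₃_le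
    _ ≤ 2 * (σ1 * q) + 2 * (σ1 * C1) + 2 * (σ1 * q) * K := add_le_add (add_le_add b1 b2) b3
    _ = _ := by ring

theorem g3 : S_geo3 := by
  intro m e R D A A' B l β he hR h1 h2 κ W Y hκ hκ1 dW dY hWY h3 r σ hr hσ
  have hWpos : ∀ z ∈ D, 0 < (W z).re := fun z hz => lt_of_le_of_lt (sq_nonneg _) (hWY z hz).2
  rcases le_or_gt r 0 with hr0 | hr0
  · have hb : ball (0 : V m) r = ∅ := Metric.ball_eq_empty.2 hr0
    refine ⟨fun _ => 0, Gt e 1 W Y, ?_, ?_, G_diff e 1 W Y D dW dY hWpos, ?_, ?_, ?_⟩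
    · rw [hb]; exact differentiableOn_empty
    · rw [hb]; intro x hx; exact absurd hx (Set.notMem_empty x)
    · intro z hz
      rw [mem_ball_zero_iff]
      exact G_ball e he 1 one_pos W Y z (hWY z hz).1 (hWY z hz).2
    · rw [hb]; intro x hx; exact absurd hx (Set.notMem_empty x)
    · rw [hb]; intro x hx; exact absurd hx (Set.notMem_empty x)
  -- constants
  have hr1 : 0 < 1 - r := by linarith
  obtain ⟨K, hK⟩ : ∃ K : ℝ, K = 1 / (1 - r) := ⟨_, rfl⟩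
  have hK0 : 0 < K := by rw [hK]; positivity
  obtain ⟨C1, hC1⟩ : ∃ C1 : ℝ, C1 = ‖A'‖ * K := ⟨_, rfl⟩
  have hC10 : 0 ≤ C1 := by rw [hC1]; positivity
  obtain ⟨C2, hC2⟩ : ∃ C2 : ℝ, C2 = 2 * K + ‖B‖ * C1 ^ 2 := ⟨_, rfl⟩
  have hC20 : 0 ≤ C2 := by rw [hC2]; positivity
  obtain ⟨c5, hc5⟩ : ∃ c5 : ℝ, c5 = (1 - r ^ 2) / 4 := ⟨_, rfl⟩
  have hc50 : 0 < c5 := by
    rw [hc5]; nlinarith
  obtain ⟨C3, hC3⟩ : ∃ C3 : ℝ, C3 = C2 * ‖l‖ * C1 + |β| * C2 ^ 2 := ⟨_, rfl⟩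
  have hC30 : 0 ≤ C3 := by rw [hC3]; positivity
  obtain ⟨σ0, hσ0⟩ : ∃ σ0 : ℝ, σ0 = c5 / (4 * (C1 ^ 2 + C2 ^ 2 + 1)) := ⟨_, rfl⟩
  have hσ00 : 0 < σ0 := by rw [hσ0]; positivity
  obtain ⟨σ1, hσ1⟩ : ∃ σ1 : ℝ, σ1 = σ / (2 * (C2 + C1 ^ 2) * (1 + K) + 2 * C1 + 1) := ⟨_, rfl⟩
  have hσ10 : 0 < σ1 := by rw [hσ1]; positivity
  obtain ⟨r2, hr2, H2⟩ := h2 σ0 hσ00
  obtain ⟨r3, hr3, H3⟩ := h3 σ1 hσ10
  -- the parameter
  obtain ⟨s, hs0, hs1, hsa, hsb, hsc, hsd⟩ : ∃ s : ℝ, 0 < s ∧ s ≤ 1 ∧ (C1 + C2 + 1) * s ≤ σ ∧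
      (C1 + C2 + 1) * s < r2 ∧ (C1 + C2 + 1) * s < r3 ∧ C3 * s ≤ c5 / 4 := by
    obtain ⟨q, hq⟩ : ∃ q : ℝ, q = min (min 1 σ) (min (min r2 r3) (c5 / 4)) := ⟨_, rfl⟩
    have hq0 : 0 < q := by
      rw [hq]
      simp only [lt_min_iff]
      exact ⟨⟨one_pos, hσ⟩, ⟨hr2, hr3⟩, by positivity⟩
    obtain ⟨Q, hQ⟩ : ∃ Q : ℝ, Q = 2 * (C1 + C2 + C3 + 1) := ⟨_, rfl⟩
    have hQ0 : 0 < Q := by rw [hQ]; positivity
    have hq1 : q ≤ 1 := by rw [hq]; exact (min_le_left _ _).trans (min_le_left _ _)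
    have hq2 : q ≤ σ := by rw [hq]; exact (min_le_left _ _).trans (min_le_right _ _)
    have hq3 : q ≤ r2 := by
      rw [hq]; exact (min_le_right _ _).trans ((min_le_left _ _).trans (min_le_left _ _))
    have hq4 : q ≤ r3 := by
      rw [hq]; exact (min_le_right _ _).trans ((min_le_left _ _).trans (min_le_right _ _))
    have hq5 : q ≤ c5 / 4 := by rw [hq]; exact (min_le_right _ _).trans (min_le_right _ _)
    have hhalf : (C1 + C2 + 1) * (q / Q) ≤ q / 2 := by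
      rw [mul_div_assoc', div_le_iff₀ hQ0, hQ]
      nlinarith
    refine ⟨q / Q, by positivity, ?_, ?_, ?_, ?_, ?_⟩
    · rw [div_le_one hQ0, hQ]; linarith
    · linarith
    · linarith
    · linarith
    · have : C3 * (q / Q) ≤ q := by
        rw [mul_div_assoc', div_le_iff₀ hQ0, hQ]
        nlinarith
      linarith
  have hs2 : s ^ 2 ≤ s := by nlinarith
  have hpt := fun x (hx : ‖x‖ < r) =>
    pt_bounds e A A' B he h1 r hr s hs0 K C1 C2 hK hC1 hC2 x hx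
  have hyr : ∀ x : V m, ‖x‖ < r → ‖yy e A' s x‖ ≤ (C1 + C2 + 1) * s ∧
      ‖ww e A' B s x‖ ≤ (C1 + C2 + 1) * s := by
    intro x hx
    obtain ⟨p1, p2, -, -⟩ := hpt x hx
    constructor
    · exact p1.trans (mul_le_mul_of_nonneg_right (by linarith) hs0.le)
    · exact p2.trans ((mul_le_mul_of_nonneg_left hs2 hC20).trans
        (mul_le_mul_of_nonneg_right (by linarith) hs0.le))
  have hdom : ∀ x : V m, ‖x‖ < r → ((R : ℂ) - ww e A' B s x) • e + yy e A' s x ∈ D := by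
    intro x hx
    obtain ⟨p1, p2, p3, p4⟩ := hpt x hx
    obtain ⟨q1, q2⟩ := hyr x hx
    refine H2 _ _ p3 (by linarith) (by linarith) ?_
    exact in_dom e A A' B l β he r hr s hs0 hs1 C1 C2 C3 c5 σ0 hC10 hC20 hC3 hc5 hc50 hσ0 hsd x hx
      p1 p2 p4
  refine ⟨fun x => ((R : ℂ) - ww e A' B s x) • e + yy e A' s x, Gt e s W Y, ?_, ?_,
    G_diff e s W Y D dW dY hWpos, ?_, ?_, ?_⟩
  · obtain ⟨d1, d2⟩ := ze_diff e he r hr
    have d3 : DifferentiableOn ℂ (yy e A' s) (ball 0 r) := by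
      unfold yy
      exact (A'.differentiable.comp_differentiableOn d2).const_smul (s : ℂ)
    have d4 : DifferentiableOn ℂ (ww e A' B s) (ball 0 r) := by
      unfold ww
      refine ((differentiableOn_const _).mul d1).add ?_
      exact (B.differentiable.comp_differentiableOn d3).clm_apply d3
    exact (((differentiableOn_const _).sub d4).smul_const e).add d3
  · intro x hx
    exact hdom x (by simpa using hx)
  · intro z hz
    rw [mem_ball_zero_iff]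
    exact G_ball e he s hs0 W Y z (hWY z hz).1 (hWY z hz).2
  · intro x hx
    have hx' : ‖x‖ < r := by simpa using hx
    obtain ⟨p1, p2, -, -⟩ := hpt x hx'
    have h5 : ((R : ℂ) - ww e A' B s x) • e + yy e A' s x - (R : ℂ) • e =
        -(ww e A' B s x) • e + yy e A' s x := by
      rw [sub_smul, neg_smul]; abel
    simp only
    rw [h5]
    refine (norm_add_le _ _).trans ?_
    rw [norm_smul, norm_neg, he, mul_one]
    have h9 := mul_le_mul_of_nonneg_left hs2 hC20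
    linarith
  · intro x hx
    have hx' : ‖x‖ < r := by simpa using hx
    obtain ⟨p1, p2, p3, p4⟩ := hpt x hx'
    obtain ⟨q1, q2⟩ := hyr x hx'
    obtain ⟨t1, t2⟩ := H3 _ _ p3 (lt_of_le_of_lt q1 hsc) (lt_of_le_of_lt q2 hsc) (hdom x hx')
    have hz := hdom x hx'
    have hyq : ‖yy e A' s x‖ ^ 2 ≤ C1 ^ 2 * s ^ 2 := by
      have h9 := pow_le_pow_left₀ (norm_nonneg _) p1 2
      have h10 : (C1 * s) ^ 2 = C1 ^ 2 * s ^ 2 := by ring
      linarith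
    have u1 : ‖W (((R : ℂ) - ww e A' B s x) • e + yy e A' s x) - (s : ℂ) ^ 2 * om e x‖ ≤
        σ1 * (C2 + C1 ^ 2) * s ^ 2 := by
      have h6 : ww e A' B s x - B (yy e A' s x) (yy e A' s x) = (s : ℂ) ^ 2 * om e x := by
        unfold ww; ring
      rw [h6] at t1
      refine t1.trans ?_
      have : ‖ww e A' B s x‖ + ‖yy e A' s x‖ ^ 2 ≤ (C2 + C1 ^ 2) * s ^ 2 := by linarith
      have h7 := mul_le_mul_of_nonneg_left this hσ10.le
      linarith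
    have u2 : ‖Y (((R : ℂ) - ww e A' B s x) • e + yy e A' s x) -
        (κ : ℂ) • ((s : ℂ) • ze e x)‖ ≤ σ1 * (C1 * s) := by
      rw [p4] at t2
      exact t2.trans (mul_le_mul_of_nonneg_left p1 hσ10.le)
    have h8 := close_est e x he r hr hx' K C1 (C2 + C1 ^ 2) σ1 s κ hK hs0 hκ hκ1 _ _ (hWpos _ hz)
      u1 u2
    refine le_trans h8 ?_
    have hX : 0 < 2 * (C2 + C1 ^ 2) * (1 + K) + 2 * C1 + 1 := by positivity
    rw [hσ1, div_mul_eq_mul_div, div_le_iff₀ hX]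
    exact mul_le_mul_of_nonneg_left (by linarith) hσ.le

end Pool.Agent.W15.Ud
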